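import Pool.Agent.Lib.MP_c7af3c_ag.T2C.H51.Stm
import Pool.Agent.Lib.MP_c7af3c_ag.T2.LC.Tools
import Pool.Agent.Lib.MP_c7af3c_ag.T2.LC.CovA
import Pool.Agent.Lib.MP_c7af3c_ag.T2.H38.OpenInt
import Pool.Agent.Lib.MP_c7af3c_ag.T2C.H60.Uniq

/-!
# MP_c7af3c_ag, project T2C: row Q25, sub-row B (helper42)
An integral cubic `B` with `R₂ + B S² = S⁵`, from the dual statement A and the density of the
integers.
-/

set_option autoImplicit false

namespace Pool.Agent.T2C.H42

open MvPolynomial Module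
open Pool.Agent.T2 (S3 mulS mem_mulS)
open Pool.Agent.T2.LC (D Dj Inj ct lf Uan mem_Uan finrank_Uan exists_Uan ct_apply lf_apply lf_hom
  fd_of_le)
open Pool.Agent.T2C.H8 (T3 mulC mem_mulC)

section dual

variable {K : Type} [Field K]

/-- the functionals of degree `N` which kill `R` -/
noncomputable def UN (N : ℕ) (R : Submodule K (MvPolynomial (Fin 3) K)) : Submodule K (D K) :=
  Uan (homogeneousComponent N) R

theorem hc_mem (n : ℕ) (v : MvPolynomial (Fin 3) K) : homogeneousComponent n v ∈ S3 K n :=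
  homogeneousComponent_mem _ _

theorem hc_self (n : ℕ) (v : MvPolynomial (Fin 3) K) (hv : v ∈ S3 K n) :
    homogeneousComponent n v = v :=
  homogeneousComponent_eq_self hv

variable {N : ℕ} {R : Submodule K (MvPolynomial (Fin 3) K)}

theorem mem_UN {θ : D K} :
    θ ∈ UN N R ↔ (∀ v, θ (homogeneousComponent N v) = θ v) ∧ ∀ r ∈ R, θ r = 0 := mem_Uan

theorem UN_hom {θ : D K} (hθ : θ ∈ UN N R) {g : MvPolynomial (Fin 3) K} {i : ℕ}
    (hg : g.IsHomogeneous i) (hi : i ≠ N) : θ g = 0 := by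
  rw [← (mem_UN.1 hθ).1, homogeneousComponent_of_mem (show g ∈ S3 K i from hg), if_neg hi.symm,
    map_zero]

theorem UN_le (N : ℕ) (R : Submodule K (MvPolynomial (Fin 3) K)) : UN N R ≤ Dj N := by
  intro θ hθ m hm
  exact UN_hom hθ (isHomogeneous_monomial _ rfl) hm

theorem UN_ct {θ : D K} (hθ : θ ∈ UN N R) {b : MvPolynomial (Fin 3) K} {r s : ℕ}
    (hb : b.IsHomogeneous r) (hrs : r + s = N)
    (h : ∀ g : MvPolynomial (Fin 3) K, g.IsHomogeneous s → θ (b * g) = 0) : ct b θ = 0 := by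
  refine LinearMap.ext fun g => ?_
  rw [ct_apply, LinearMap.zero_apply, ← g.sum_homogeneousComponent, Finset.mul_sum, map_sum]
  refine Finset.sum_eq_zero fun i _ => ?_
  by_cases hi : i = s
  · subst hi
    exact h _ (homogeneousComponent_isHomogeneous _ _)
  · exact UN_hom hθ (hb.mul (homogeneousComponent_isHomogeneous i g)) (by omega)

theorem finrank_S3 (N : ℕ) : finrank K (S3 K N) = (N + 2).choose 2 :=
  Edge.H65.finrank_hom3 K N

theorem finite_S3 (N : ℕ) : FiniteDimensional K (S3 K N) := Edge.H65.finite_hom3 K N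

theorem finrank_UN (hR : R ≤ S3 K N) : finrank K (UN N R) + finrank K R = (N + 2).choose 2 := by
  have : FiniteDimensional K (S3 K N) := finite_S3 N
  rw [← finrank_S3 (K := K) N]
  exact finrank_Uan (S3 K N) R hR (homogeneousComponent N) (hc_mem N) (hc_self N)

theorem UN_sup {T : Submodule K (MvPolynomial (Fin 3) K)} {θ : D K} (h1 : θ ∈ UN N R)
    (h2 : ∀ r ∈ T, θ r = 0) : θ ∈ UN N (R ⊔ T) := by
  refine mem_UN.2 ⟨(mem_UN.1 h1).1, fun r hr => ?_⟩
  obtain ⟨a, ha, b, hb, rfl⟩ := Submodule.mem_sup.1 hr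
  rw [map_add, (mem_UN.1 h1).2 a ha, h2 b hb, add_zero]

theorem mulS_le {a : MvPolynomial (Fin 3) K} {r s : ℕ} (ha : a.IsHomogeneous r)
    (h : r + s = N) : mulS a s ≤ S3 K N := by
  intro g hg
  obtain ⟨b, hb, rfl⟩ := mem_mulS.1 hg
  have := ha.mul hb
  rwa [h] at this

theorem lf_inj {l : Fin 3 → K} (h : lf l = 0) : l = 0 := by
  funext i
  have h1 : coeff (Finsupp.single i 1) (lf l) = l i := by
    rw [lf_apply, coeff_sum, Finset.sum_eq_single i]
    · rw [coeff_smul, coeff_X, if_pos rfl, smul_eq_mul, mul_one]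
    · intro j _ hj
      rw [coeff_smul, coeff_X, if_neg, smul_zero]
      intro h2
      exact hj (Finsupp.single_left_injective one_ne_zero h2)
    · intro h2
      exact absurd (Finset.mem_univ i) h2
  rw [← h1, h]
  rfl

/-- a form which is injective on the dual space generates the rest -/
theorem sup_of_inj (hR : R ≤ S3 K N) {B : MvPolynomial (Fin 3) K} {r s : ℕ}
    (hB : B.IsHomogeneous r) (hrs : r + s = N) (hi : Inj (UN N R) B) : R ⊔ mulS B s = S3 K N := by
  have h1 : R ⊔ mulS B s ≤ S3 K N := sup_le hR (mulS_le hB hrs)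
  by_contra hne
  obtain ⟨v, hv, hv'⟩ : ∃ v ∈ S3 K N, v ∉ R ⊔ mulS B s := by
    by_contra hcon
    push Not at hcon
    exact hne (le_antisymm h1 hcon)
  obtain ⟨θ, h2, h3⟩ :=
    exists_Uan (S3 K N) _ h1 (homogeneousComponent N) (hc_mem N) (hc_self N) hv hv'
  have h4 : θ ∈ UN N (R ⊔ mulS B s) := h2
  have h5 : θ ∈ UN N R :=
    mem_UN.2 ⟨(mem_UN.1 h4).1, fun r hr => (mem_UN.1 h4).2 r (Submodule.mem_sup_left hr)⟩
  have h6 : ct B θ = 0 := UN_ct h5 hB hrs fun g hg =>
    (mem_UN.1 h4).2 _ (Submodule.mem_sup_right (mem_mulS.2 ⟨g, hg, rfl⟩))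
  have h7 := hi θ h5 h6
  rw [h7] at h3
  exact h3 rfl

end dual

/-! ### density -/

section dens

variable {K : Type} [Field K] (R : Submodule K (MvPolynomial (Fin 3) K))

/-- multiplication by a cubic from conics to quintics modulo `R` -/
noncomputable def mq {C : MvPolynomial (Fin 3) K} (hC : C.IsHomogeneous 3) :
    S3 K 2 →ₗ[K] (S3 K 5 ⧸ R.comap (S3 K 5).subtype) :=
  (R.comap (S3 K 5).subtype).mkQ ∘ₗ
    (((LinearMap.mulLeft K C).comp (S3 K 2).subtype).codRestrict (S3 K 5) fun a => by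
      have := hC.mul (show (a : MvPolynomial (Fin 3) K).IsHomogeneous 2 from a.2)
      exact this)

theorem mq_apply {C : MvPolynomial (Fin 3) K} (hC : C.IsHomogeneous 3) (a : S3 K 2)
    (h : C * (a : MvPolynomial (Fin 3) K) ∈ S3 K 5) :
    mq R hC a = (R.comap (S3 K 5).subtype).mkQ ⟨C * a, h⟩ := rfl

theorem mq_surj_iff (hR : R ≤ S3 K 5) {C : MvPolynomial (Fin 3) K} (hC : C.IsHomogeneous 3) :
    Function.Surjective (mq R hC) ↔ R ⊔ mulS C 2 = S3 K 5 := by
  have hm : mulS C 2 ≤ S3 K 5 := mulS_le hC rfl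
  constructor
  · intro hs
    refine le_antisymm (sup_le hR hm) ?_
    intro g hg
    obtain ⟨a, ha⟩ := hs ((R.comap (S3 K 5).subtype).mkQ ⟨g, hg⟩)
    have h6 : C * (a : MvPolynomial (Fin 3) K) ∈ S3 K 5 := hm ⟨a, a.2, rfl⟩
    rw [mq_apply R hC a h6, Submodule.mkQ_apply, Submodule.mkQ_apply,
      Submodule.Quotient.eq, Submodule.mem_comap] at ha
    have h1 : C * (a : MvPolynomial (Fin 3) K) - g ∈ R := ha
    have h2 : g = -(C * (a : MvPolynomial (Fin 3) K) - g) + C * a := by ring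
    rw [h2]
    exact Submodule.add_mem_sup (R.neg_mem h1) ⟨a, a.2, rfl⟩
  · intro he w
    obtain ⟨⟨g, hg⟩, rfl⟩ := Submodule.mkQ_surjective _ w
    have hg' : g ∈ R ⊔ mulS C 2 := by rw [he]; exact hg
    obtain ⟨r, hr, s, hs, hrs⟩ := Submodule.mem_sup.mp hg'
    obtain ⟨b, hb, rfl⟩ := hs
    refine ⟨⟨b, hb⟩, ?_⟩
    have h6 : C * b ∈ S3 K 5 := hm ⟨b, hb, rfl⟩
    rw [mq_apply R hC ⟨b, hb⟩ h6, Submodule.mkQ_apply, Submodule.mkQ_apply,
      Submodule.Quotient.eq, Submodule.mem_comap]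
    have h2 : C * b - g = -r := by
      rw [← hrs, LinearMap.mulLeft_apply]
      ring
    change C * b - g ∈ R
    rw [h2]
    exact R.neg_mem hr

theorem mq_sum {ι : Type} [Fintype ι] (m : ι → MvPolynomial (Fin 3) K)
    (hm : ∀ i, (m i).IsHomogeneous 3) (s : ι → K)
    (hs : (∑ i, C (s i) * m i).IsHomogeneous 3) :
    (∑ i, s i • mq R (hm i)) = mq R hs := by
  ext1 a
  have h6 : ∀ {c : MvPolynomial (Fin 3) K}, c.IsHomogeneous 3 →
      c * (a : MvPolynomial (Fin 3) K) ∈ S3 K 5 := fun hc => by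
    have := hc.mul (show (a : MvPolynomial (Fin 3) K).IsHomogeneous 2 from a.2)
    exact this
  rw [LinearMap.sum_apply, mq_apply R hs a (h6 hs)]
  simp only [LinearMap.smul_apply, mq_apply R (hm _) a (h6 (hm _))]
  simp only [← map_smul]
  rw [← map_sum]
  congr 1
  apply Subtype.ext
  rw [AddSubmonoidClass.coe_finsetSum]
  simp only [Submodule.coe_smul, Finset.sum_mul]
  refine Finset.sum_congr rfl fun i _ => ?_
  rw [smul_eq_C_mul, mul_assoc]

theorem mq_int (hR : R ≤ S3 K 5) [CharZero K] {ι : Type} [Fintype ι]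
    (I : ι → (Fin 3 →₀ ℕ)) (hI : ∀ i, (I i).degree = 3) (c : ι → K)
    (hc : R ⊔ mulS (∑ i, monomial (I i) (c i)) 2 = S3 K 5) :
    ∃ c' : ι → ℤ, R ⊔ mulS (∑ i, monomial (I i) (c' i : K)) 2 = S3 K 5 := by
  have hm : ∀ i, (monomial (I i) (1 : K)).IsHomogeneous 3 := fun i =>
    isHomogeneous_monomial _ (hI i)
  have hsum : ∀ s : ι → K, (∑ i, C (s i) * monomial (I i) (1 : K)).IsHomogeneous 3 := fun s => by
    refine IsHomogeneous.sum _ _ _ fun i _ => ?_
    simpa using (isHomogeneous_C _ (s i)).mul (hm i)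
  have he : ∀ s : ι → K, ∑ i, C (s i) * monomial (I i) (1 : K) = ∑ i, monomial (I i) (s i) := by
    intro s
    refine Finset.sum_congr rfl fun i _ => ?_
    rw [C_mul_monomial, mul_one]
  have hfin : FiniteDimensional K (S3 K 5) := finite_S3 5
  have hfin' : FiniteDimensional K (S3 K 5 ⧸ R.comap (S3 K 5).subtype) := inferInstance
  have h1 : Function.Surjective (∑ i, c i • mq R (hm i) :
      S3 K 2 →ₗ[K] (S3 K 5 ⧸ R.comap (S3 K 5).subtype)) := by
    rw [mq_sum R (fun i => monomial (I i) (1 : K)) hm c (hsum c), mq_surj_iff R hR (hsum c), he]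
    exact hc
  obtain ⟨c', hc'⟩ := Pool.Agent.T2.H38.exists_int_surjective (fun i => mq R (hm i)) c h1
  refine ⟨c', ?_⟩
  rw [mq_sum R (fun i => monomial (I i) (1 : K)) hm (fun i => (c' i : K)) (hsum _),
    mq_surj_iff R hR (hsum _), he] at hc'
  exact hc'

theorem dens [CharZero K] (hR : R ≤ S3 K 5) (B : MvPolynomial (Fin 3) K) (hB : B.IsHomogeneous 3)
    (he : R ⊔ mulS B 2 = S3 K 5) : ∃ B' : MvPolynomial (Fin 3) ℤ, B'.IsHomogeneous 3 ∧
      R ⊔ mulS (MvPolynomial.map (Int.castRingHom K) B') 2 = S3 K 5 := by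
  classical
  have hd : ∀ i : B.support, (i : Fin 3 →₀ ℕ).degree = 3 := fun i => by
    have := hB (mem_support_iff.mp i.2)
    rwa [Finsupp.degree_eq_weight_one]
  have hBs : ∑ i : B.support, monomial (i : Fin 3 →₀ ℕ) (coeff (i : Fin 3 →₀ ℕ) B) = B := by
    rw [Finset.sum_coe_sort B.support fun I => monomial I (coeff I B)]
    exact B.as_sum.symm
  obtain ⟨c', hc'⟩ := mq_int R hR (fun i : B.support => (i : Fin 3 →₀ ℕ)) hd
    (fun i => coeff (i : Fin 3 →₀ ℕ) B) (by rw [hBs]; exact he)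
  refine ⟨∑ i : B.support, monomial (i : Fin 3 →₀ ℕ) (c' i), ?_, ?_⟩
  · exact IsHomogeneous.sum _ _ _ fun i _ => isHomogeneous_monomial _ (hd i)
  · rw [← hc', map_sum]
    congr 2
    refine Finset.sum_congr rfl fun i _ => ?_
    rw [map_monomial]
    rfl

end dens

/-! ### tuples -/

section tup

variable {K : Type} [Field K] {d : Fin 2 → ℕ}

/-- the component `m1` -/
noncomputable def R2 (m1 : Fin 2) (R : Submodule K (T3 K 2)) :
    Submodule K (MvPolynomial (Fin 3) K) :=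
  R.comap (LinearMap.single K (fun _ => MvPolynomial (Fin 3) K) m1)

theorem mem_R2 {m1 : Fin 2} {R : Submodule K (T3 K 2)} {r : MvPolynomial (Fin 3) K} :
    r ∈ R2 m1 R ↔ (Pi.single m1 r : T3 K 2) ∈ R := Iff.rfl

theorem eq_single {m0 m1 : Fin 2} (hm : m0 ≠ m1) {g : T3 K 2} (h : g m0 = 0) :
    (Pi.single m1 (g m1) : T3 K 2) = g := by
  funext m
  by_cases h1 : m = m1
  · subst h1; rw [Pi.single_eq_same]
  · rw [Pi.single_eq_of_ne h1]
    have : m = m0 := by omega
    rw [this, h]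

theorem finrank_R2 {m0 m1 : Fin 2} (hm : m0 ≠ m1) {R : Submodule K (T3 K 2)}
    (h : ∀ g ∈ R, g m0 = 0) : finrank K (R2 m1 R) = finrank K R := by
  have hinj : Function.Injective
      (LinearMap.single K (fun _ : Fin 2 => MvPolynomial (Fin 3) K) m1) := fun a b hab =>
    Pi.single_injective (M := fun _ : Fin 2 => MvPolynomial (Fin 3) K) m1 hab
  have h1 : (R2 m1 R).map (LinearMap.single K (fun _ => MvPolynomial (Fin 3) K) m1) = R := by
    apply le_antisymm
    · rw [Submodule.map_le_iff_le_comap]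
      exact le_rfl
    · intro g hg
      have h2 := eq_single hm (h g hg)
      exact ⟨g m1, mem_R2.2 (by rw [h2]; exact hg), h2⟩
  have h2 := (Submodule.equivMapOfInjective _ hinj (R2 m1 R)).finrank_eq
  rw [h1] at h2
  exact h2

theorem R2_le {m1 : Fin 2} {R : Submodule K (T3 K 2)} (hR : R ≤ ST K d) :
    R2 m1 R ≤ S3 K (d m1) := by
  intro r hr
  have h := hR (mem_R2.1 hr) m1
  rw [Pi.single_eq_same] at h
  exact h

end tup

theorem q25b : Q25.BStatement := by
  intro hA K _ _ d y R hR m0 m1 h2 h5 h0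
  have hm : m0 ≠ m1 := by rintro rfl; omega
  have hST : finrank K (ST K d) = 27 := by
    rw [H60.finrank_ST, Fin.sum_univ_two]
    have h3 : (d 0 = 2 ∧ d 1 = 5) ∨ (d 0 = 5 ∧ d 1 = 2) := by
      have h4 : (m0 = 0 ∧ m1 = 1) ∨ (m0 = 1 ∧ m1 = 0) := by omega
      rcases h4 with ⟨rfl, rfl⟩ | ⟨rfl, rfl⟩
      · exact Or.inl ⟨h2, h5⟩
      · exact Or.inr ⟨h5, h2⟩
    rcases h3 with ⟨h4, h6⟩ | ⟨h4, h6⟩ <;> rw [h4, h6] <;> rfl
  have hle : R2 m1 R ≤ S3 K 5 := by rw [← h5]; exact R2_le hR.le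
  have hd : finrank K (R2 m1 R) = 16 := by
    have h3 := hR.dim
    rw [finrank_R2 hm h0]
    omega
  have h21 : (5 + 2).choose 2 = 21 := rfl
  have hU5 : finrank K (UN 5 (R2 m1 R)) = 5 := by
    have h3 := finrank_UN hle
    omega
  have hline : ∀ l : Fin 3 → K, l ≠ 0 →
      finrank K (UN 5 (R2 m1 R) ⊓ LinearMap.ker (ct (lf l)) : Submodule K (D K)) ≤ 3 := by
    intro l hl
    have hl0 : lf l ≠ 0 := fun h => hl (lf_inj h)
    have h1 := hR.line (lf l) (lf_hom l) hl0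
    have e4 : R2 m1 R ⊔ mulS (lf l) 4 ≤ S3 K 5 := sup_le hle (mulS_le (lf_hom l) rfl)
    have hfS : FiniteDimensional K (S3 K 5) := finite_S3 5
    have hf1 : FiniteDimensional K (R2 m1 R ⊔ mulS (lf l) 4 :
        Submodule K (MvPolynomial (Fin 3) K)) := Submodule.finiteDimensional_of_le e4
    obtain ⟨A, hA1, hA0⟩ : ∃ A : Fin 2 → Submodule K (MvPolynomial (Fin 3) K),
        A m1 = R2 m1 R ⊔ mulS (lf l) 4 ∧ A m0 = mulS (lf l) 1 :=
      ⟨fun m => if m = m1 then R2 m1 R ⊔ mulS (lf l) 4 else mulS (lf l) 1, if_pos rfl,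
        if_neg hm⟩
    have hcase : ∀ m : Fin 2, m = m0 ∨ m = m1 := by omega
    have hf : ∀ m, FiniteDimensional K (A m) := by
      intro m
      rcases hcase m with h3 | h3
      · rw [h3, hA0]; infer_instance
      · rw [h3, hA1]; exact hf1
    have h3 : R ⊔ mulC (lf l) (fun m => d m - 1) ≤ Submodule.pi Set.univ A := by
      refine sup_le ?_ ?_
      · intro g hg m _
        change g m ∈ A m
        rcases hcase m with h3 | h3
        · rw [h3, h0 g hg]
          exact zero_mem _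
        · rw [h3, hA1]
          refine Submodule.mem_sup_left (mem_R2.2 ?_)
          rw [eq_single hm (h0 g hg)]
          exact hg
      · rw [H60.mulC_eq]
        intro g hg m _
        have h4 : g m ∈ mulS (lf l) (d m - 1) := hg m trivial
        change g m ∈ A m
        rcases hcase m with h3 | h3
        · subst h3
          rw [h2] at h4
          rw [hA0]
          exact h4
        · subst h3
          rw [h5] at h4
          rw [hA1]
          exact Submodule.mem_sup_right h4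
    have h4 := Submodule.finrank_mono h3
    rw [H11.finrank_piS, Fin.sum_univ_two] at h4
    have h6 : finrank K (A m0) = 3 := by
      rw [hA0, Pool.Agent.T2.H60.finrank_mulS hl0]; rfl
    have h7 : finrank K (R2 m1 R ⊔ mulS (lf l) 4 : Submodule K (MvPolynomial (Fin 3) K)) + 3 ≥
        21 := by
      rw [← hA1]
      have h8 : (m0 = 0 ∧ m1 = 1) ∨ (m0 = 1 ∧ m1 = 0) := by omega
      rcases h8 with ⟨h8, h8'⟩ | ⟨h8, h8'⟩
      · rw [h8] at h6; rw [h8']; omega
      · rw [h8] at h6; rw [h8']; omega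
    have h9 := finrank_UN e4
    have h10 : UN 5 (R2 m1 R) ⊓ LinearMap.ker (ct (lf l)) ≤ UN 5 (R2 m1 R ⊔ mulS (lf l) 4) := by
      rintro θ ⟨h6, h7⟩
      refine UN_sup h6 fun r hr => ?_
      obtain ⟨b, -, rfl⟩ := mem_mulS.1 hr
      exact LinearMap.congr_fun h7 b
    have hfd : FiniteDimensional K (UN 5 (R2 m1 R ⊔ mulS (lf l) 4)) := fd_of_le (UN_le _ _)
    have h11 := Submodule.finrank_mono h10
    omega
  obtain ⟨l₁, l₂, l₃, hi⟩ := hA K (UN 5 (R2 m1 R)) (UN_le _ _) hU5 hline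
  have hB0 : (lf l₁ * lf l₂ * lf l₃ : MvPolynomial (Fin 3) K).IsHomogeneous 3 :=
    ((lf_hom l₁).mul (lf_hom l₂)).mul (lf_hom l₃)
  obtain ⟨B, hB, hB2⟩ := dens (R2 m1 R) hle _ hB0 (sup_of_inj hle hB0 rfl hi)
  refine ⟨B, hB, fun a ha => ?_⟩
  have h1 : a ∈ R2 m1 R ⊔ mulS (MvPolynomial.map (Int.castRingHom K) B) 2 := by
    rw [hB2]; exact ha
  obtain ⟨r, hr, s, hs, rfl⟩ := Submodule.mem_sup.1 h1
  obtain ⟨b, hb, rfl⟩ := mem_mulS.1 hs
  exact ⟨r, b, mem_R2.1 hr, hb, rfl⟩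

end Pool.Agent.T2C.H42
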